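import Pool.Agent.KS6_88.PR.Kernel

/-! `l^r` bounds, exponential tails and the converse implications. -/

set_option autoImplicit false

namespace Pool.Agent.KS6_88.PR

open Finset

theorem simp1 {ρ C F : ℝ} (hρ : 1 < ρ) (hC : 0 < C) (hF : 0 ≤ F) :
    (C * 2 ^ ρ / (ρ - 1) * F) ^ (1 / ρ) = C ^ (1 / ρ) * 2 * ((ρ - 1) ^ (1 / ρ))⁻¹ * F ^ (1 / ρ) := by
  have h1 : 0 < ρ - 1 := by linarith
  rw [Real.mul_rpow (by positivity) hF, Real.div_rpow (by positivity) h1.le,
    Real.mul_rpow hC.le (by positivity), ← Real.rpow_mul (by norm_num), mul_one_div_cancel (by linarith),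
    Real.rpow_one]
  ring

/-- the constant of the bilinear form -/
theorem const {r s C F G : ℝ} (hrs : r.HolderConjugate s) (hC : 0 < C) (hF : 0 ≤ F) (hG : 0 ≤ G) :
    16 * ((C * 2 ^ r / (r - 1) * F) ^ (1 / r) * (C * 2 ^ s / (s - 1) * G) ^ (1 / s)) =
      64 * C * (r - 1) ^ (1 / s - 1 / r) * F ^ (1 / r) * G ^ (1 / s) := by
  have hr := hrs.lt
  have hs := hrs.symm.lt
  have h1 : 0 < r - 1 := by linarith
  rw [simp1 hr hC hF, simp1 hs hC hG]
  have h2 : s - 1 = (r - 1)⁻¹ := by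
    have := hrs.sub_one_mul_conj
    field_simp
    linarith
  have h3 : C ^ (1 / r) * C ^ (1 / s) = C := by
    rw [← Real.rpow_add hC, one_div, one_div, hrs.inv_add_inv_eq_one, Real.rpow_one]
  rw [h2, Real.inv_rpow h1.le, inv_inv, Real.rpow_sub h1]
  calc _ = 64 * (C ^ (1 / r) * C ^ (1 / s)) * ((r - 1) ^ (1 / s) / (r - 1) ^ (1 / r)) *
        F ^ (1 / r) * G ^ (1 / s) := by ring
    _ = _ := by rw [h3]

/-- the kernel applied to `f` -/
noncomputable def ker (A : Finset ℕ) (f : ℕ → ℝ) (p : ℕ) : ℝ := ∑ q ∈ A, f q * (1 / |(p : ℝ) - q|)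

theorem ker_nonneg (A : Finset ℕ) (f : ℕ → ℝ) (hf : ∀ a, 0 ≤ f a) (p : ℕ) : 0 ≤ ker A f p :=
  sum_nonneg fun q _ => mul_nonneg (hf q) (by positivity)

theorem operator {r c : ℝ} (hr : 1 < r) (hc : 0 ≤ c) (A : Finset ℕ)
    (hS : ∀ B ⊆ A, pairSum B ≤ c * #B) (f : ℕ → ℝ) (hf : ∀ a, 0 ≤ f a) :
    ∑ p ∈ A, ker A f p ^ r ≤ (64 * (1 + 4 * c)) ^ r * (r - 1) ^ (r - 2) * ∑ p ∈ A, f p ^ r := by
  have hC : 0 < 1 + 4 * c := by linarith
  have h1 : 0 < r - 1 := by linarith
  have hrs := Real.HolderConjugate.conjExponent hr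
  set s := r.conjExponent with hs
  set F := ∑ p ∈ A, f p ^ r with hF
  set H := ∑ p ∈ A, ker A f p ^ r with hH
  have hF0 : 0 ≤ F := sum_nonneg fun a _ => Real.rpow_nonneg (hf a) _
  have hk := ker_nonneg A f hf
  have hH0 : 0 ≤ H := sum_nonneg fun a _ => Real.rpow_nonneg (hk a) _
  have b := bilinear hrs.symm hc A hS (fun p => ker A f p ^ (r - 1)) f
    (fun a => Real.rpow_nonneg (hk a) _) hf
  have e1 : ∑ p ∈ A, ∑ q ∈ A, ker A f p ^ (r - 1) * f q * (1 / |(p : ℝ) - q|) = H := by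
    refine sum_congr rfl fun p _ => ?_
    simp only [mul_assoc]
    rw [← mul_sum]
    change ker A f p ^ (r - 1) * ker A f p = _
    rcases (hk p).eq_or_lt with e | e
    · rw [← e, mul_zero, Real.zero_rpow (by linarith)]
    · rw [← Real.rpow_add_one e.ne']
      congr 1; ring
  have e2 : ∑ a ∈ A, (ker A f a ^ (r - 1)) ^ s = H := by
    refine sum_congr rfl fun p _ => ?_
    rw [← Real.rpow_mul (hk p), hrs.sub_one_mul_conj]
  rw [e1, e2, mul_comm ((_ : ℝ) ^ (1 / s)), const hrs hC hF0 hH0] at b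
  rcases hH0.eq_or_lt with e | e
  · rw [← e]; positivity
  set K := 64 * (1 + 4 * c) * (r - 1) ^ (1 / s - 1 / r) with hK
  have hK0 : 0 ≤ K := by positivity
  have b2 : H ^ (1 / r) ≤ K * F ^ (1 / r) := by
    have hp : 0 < H ^ (1 / s) := Real.rpow_pos_of_pos e _
    have e3 : H = H ^ (1 / r) * H ^ (1 / s) := by
      rw [← Real.rpow_add e, one_div, one_div, hrs.inv_add_inv_eq_one, Real.rpow_one]
    have b' : H ^ (1 / r) * H ^ (1 / s) ≤ K * F ^ (1 / r) * H ^ (1 / s) := by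
      rw [← e3]; exact b
    exact le_of_mul_le_mul_right b' hp
  have b3 := Real.rpow_le_rpow (by positivity) b2 (show 0 ≤ r by linarith)
  rw [← Real.rpow_mul hH0, one_div_mul_cancel (by linarith), Real.rpow_one,
    Real.mul_rpow hK0 (by positivity), ← Real.rpow_mul hF0, one_div_mul_cancel (by linarith),
    Real.rpow_one, hK, Real.mul_rpow (by positivity) (by positivity), ← Real.rpow_mul h1.le] at b3
  have e4 : (1 / s - 1 / r) * r = r - 2 := by
    have h2 := hrs.inv_add_inv_eq_one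
    have h3 : (1 : ℝ) / s = 1 - 1 / r := by rw [one_div, one_div]; linarith
    rw [h3]
    have : r ≠ 0 := by linarith
    field_simp
    ring
  rw [e4] at b3
  exact b3

theorem tail {c : ℝ} (hc : 0 ≤ c) (A : Finset ℕ) (hS : ∀ B ⊆ A, pairSum B ≤ c * #B) (x : ℝ) :
    (#{p ∈ A | x ≤ ker A (fun _ => 1) p} : ℝ) ≤
      8 * Real.exp (-(1 / (Real.exp 1 * (64 * (1 + 4 * c))) * x)) * #A := by
  set κ := 64 * (1 + 4 * c) with hκ
  have hκ0 : 0 < κ := by rw [hκ]; linarith
  have he := Real.exp_pos 1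
  have hA : (0 : ℝ) ≤ #A := Nat.cast_nonneg _
  set r := 1 / (Real.exp 1 * κ) * x with hr
  have hxr : x = r * Real.exp 1 * κ := by rw [hr]; field_simp
  rcases lt_or_ge r 2 with h | h
  · have h1 : (#{p ∈ A | x ≤ ker A (fun _ => 1) p} : ℝ) ≤ #A := by
      exact_mod_cast card_le_card (filter_subset _ _)
    have h2 : 1 ≤ 8 * Real.exp (-r) := by
      rw [Real.exp_neg]
      have h3 : Real.exp r ≤ 8 := by
        have h4 : Real.exp r ≤ Real.exp (1 + 1) := Real.exp_le_exp.mpr (by linarith)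
        rw [Real.exp_add] at h4
        have h5 := Real.exp_one_lt_d9
        have h6 : Real.exp 1 * Real.exp 1 ≤ 2.7182818286 * 2.7182818286 :=
          mul_le_mul h5.le h5.le he.le (by norm_num)
        norm_num at h6 ⊢
        linarith
      have := Real.exp_pos r
      rw [← div_eq_mul_inv, le_div_iff₀ this]
      linarith
    calc (#{p ∈ A | x ≤ ker A (fun _ => 1) p} : ℝ) ≤ 1 * #A := by linarith
      _ ≤ _ := mul_le_mul_of_nonneg_right h2 hA
  · have hx : 0 < x := by rw [hxr]; positivity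
    have op := operator (r := r) (by linarith) hc A hS (fun _ => 1) (fun _ => zero_le_one)
    simp only [Real.one_rpow, sum_const, nsmul_eq_mul, mul_one] at op
    rw [← hκ] at op
    have h1 : (#{p ∈ A | x ≤ ker A (fun _ => 1) p} : ℝ) * x ^ r ≤
        ∑ p ∈ A, ker A (fun _ => 1) p ^ r := by
      rw [← nsmul_eq_mul, ← sum_const]
      refine (sum_le_sum (g := fun p => ker A (fun _ => 1) p ^ r) fun p hp => ?_).trans
        (sum_le_sum_of_subset_of_nonneg (filter_subset _ _)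
        fun p _ _ => Real.rpow_nonneg (ker_nonneg A _ (fun _ => zero_le_one) p) _)
      exact Real.rpow_le_rpow hx.le (mem_filter.mp hp).2 (by linarith)
    have h2 : (r - 1) ^ (r - 2) ≤ r ^ r := by
      calc (r - 1) ^ (r - 2) ≤ r ^ (r - 2) :=
            Real.rpow_le_rpow (by linarith) (by linarith) (by linarith)
        _ ≤ r ^ r := Real.rpow_le_rpow_of_exponent_le (by linarith) (by linarith)
    have h3 : (#{p ∈ A | x ≤ ker A (fun _ => 1) p} : ℝ) * x ^ r ≤ κ ^ r * r ^ r * #A := by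
      refine (h1.trans op).trans (mul_le_mul_of_nonneg_right ?_ hA)
      exact mul_le_mul_of_nonneg_left h2 (by positivity)
    have h4 : x ^ r = κ ^ r * r ^ r * Real.exp r := by
      conv_lhs => rw [hxr]
      rw [Real.mul_rpow (by positivity) hκ0.le, Real.mul_rpow (by linarith) he.le,
        ← Real.exp_mul, one_mul]
      ring
    rw [h4] at h3
    have hkr : 0 < κ ^ r * r ^ r := by
      have : 0 < r := by linarith
      positivity
    have h5 : (#{p ∈ A | x ≤ ker A (fun _ => 1) p} : ℝ) * Real.exp r ≤ #A := by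
      have : κ ^ r * r ^ r * ((#{p ∈ A | x ≤ ker A (fun _ => 1) p} : ℝ) * Real.exp r) ≤
          κ ^ r * r ^ r * #A := by linarith
      exact le_of_mul_le_mul_left this hkr
    have h6 : (#{p ∈ A | x ≤ ker A (fun _ => 1) p} : ℝ) ≤ Real.exp (-r) * #A := by
      rw [Real.exp_neg, inv_mul_eq_div, le_div_iff₀ (Real.exp_pos r)]
      exact h5
    refine h6.trans (mul_le_mul_of_nonneg_right ?_ hA)
    have := Real.exp_pos (-r)
    linarith

/-- the sum over the other elements, as in the problem -/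
noncomputable def rowSum (A : Finset ℕ) (f : ℕ → ℝ) (p : ℕ) : ℝ :=
  ∑ q ∈ A.erase p, |f q| / |(p : ℝ) - (q : ℝ)|

theorem rowSum_eq (A : Finset ℕ) (f : ℕ → ℝ) (p : ℕ) : rowSum A f p = ker A (fun q => |f q|) p := by
  unfold rowSum ker
  rw [sum_erase _ (by simp)]
  exact sum_congr rfl fun q _ => by ring

theorem sum_ker_one (A : Finset ℕ) : ∑ p ∈ A, ker A (fun _ => 1) p = 2 * pairSum A := by
  rw [← sym]
  unfold ker
  simp only [one_mul]

/-- from tails to the linear bound -/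
theorem linear_of_tail {c : ℝ} (hc : 0 < c) (A : Finset ℕ)
    (h : ∀ x : ℝ, (#{p ∈ A | x ≤ ker A (fun _ => 1) p} : ℝ) ≤ 8 * Real.exp (-(c * x)) * #A) :
    pairSum A ≤ 4 * (1 - Real.exp (-c))⁻¹ * #A := by
  have hk := ker_nonneg A (fun _ => 1) (fun _ => zero_le_one)
  obtain ⟨K, hK⟩ : ∃ K : ℕ, ∀ p ∈ A, ker A (fun _ => 1) p < K := by
    obtain ⟨K, hK⟩ := exists_nat_gt (∑ p ∈ A, ker A (fun _ => 1) p)
    exact ⟨K, fun p hp => lt_of_le_of_lt (single_le_sum (f := fun p => ker A (fun _ => 1) p)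
      (fun p _ => hk p) hp) hK⟩
  have h1 : ∀ p ∈ A, ker A (fun _ => 1) p ≤
      ∑ k ∈ range K, (if (k : ℝ) ≤ ker A (fun _ => 1) p then (1 : ℝ) else 0) := by
    intro p hp
    set y := ker A (fun _ => 1) p with hy
    have hfl : ⌊y⌋₊ + 1 ≤ K := by
      have : ⌊y⌋₊ < K := (Nat.floor_lt (hk p)).mpr (hK p hp)
      omega
    calc y ≤ ((⌊y⌋₊ + 1 : ℕ) : ℝ) := by push_cast; exact (Nat.lt_floor_add_one y).le
      _ = ∑ k ∈ range (⌊y⌋₊ + 1), (1 : ℝ) := by simp
      _ = ∑ k ∈ range (⌊y⌋₊ + 1), (if (k : ℝ) ≤ y then (1 : ℝ) else 0) := by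
          refine sum_congr rfl fun k hk' => ?_
          have : k ≤ ⌊y⌋₊ := by have := mem_range.mp hk'; omega
          rw [if_pos ((Nat.le_floor_iff (hk p)).mp this)]
      _ ≤ _ := sum_le_sum_of_subset_of_nonneg (range_subset_range.mpr hfl)
          fun k _ _ => by split_ifs <;> norm_num
  have h2 := sum_le_sum h1
  rw [sum_ker_one, sum_comm] at h2
  have h3 : ∀ k ∈ range K, ∑ p ∈ A, (if (k : ℝ) ≤ ker A (fun _ => 1) p then (1 : ℝ) else 0) ≤
      8 * #A * Real.exp (-c) ^ k := by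
    intro k _
    have := h k
    rw [← Real.exp_nat_mul]
    have e : ∑ p ∈ A, (if (k : ℝ) ≤ ker A (fun _ => 1) p then (1 : ℝ) else 0) =
        (#{p ∈ A | (k : ℝ) ≤ ker A (fun _ => 1) p} : ℝ) := by simp
    rw [e]
    refine this.trans (le_of_eq ?_)
    rw [show -(c * (k : ℝ)) = k * -c by ring]
    ring
  have h4 := h2.trans (sum_le_sum h3)
  rw [← mul_sum] at h4
  have hlt : Real.exp (-c) < 1 := by rw [Real.exp_lt_one_iff]; linarith
  have h5 : ∑ k ∈ range K, Real.exp (-c) ^ k ≤ (1 - Real.exp (-c))⁻¹ := by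
    rw [← tsum_geometric_of_lt_one (Real.exp_pos _).le hlt]
    exact (summable_geometric_of_lt_one (Real.exp_pos _).le hlt).sum_le_tsum _
      (fun k _ => pow_nonneg (Real.exp_pos _).le _)
  have h6 := mul_le_mul_of_nonneg_left h5 (show (0 : ℝ) ≤ 8 * #A by positivity)
  linarith

/-- from the bound with exponent two to the linear bound -/
theorem linear_of_sq {C : ℝ} (hC : 0 < C) (A : Finset ℕ)
    (h : ∑ p ∈ A, ker A (fun _ => 1) p ^ (2 : ℝ) ≤ C ^ (2 : ℝ) * #A) :
    pairSum A ≤ C * #A := by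
  simp only [Real.rpow_two] at h
  have h1 := sq_sum_le_card_mul_sum_sq (s := A) (f := fun p => ker A (fun _ => 1) p)
  rw [sum_ker_one] at h1
  have hA : (0 : ℝ) ≤ #A := Nat.cast_nonneg _
  have h2 : (2 * pairSum A) ^ 2 ≤ (C * #A) ^ 2 := by
    refine h1.trans ((mul_le_mul_of_nonneg_left h hA).trans (le_of_eq (by ring)))
  have h3 : 0 ≤ 2 * pairSum A := by
    rw [← sum_ker_one]
    exact sum_nonneg fun p _ => ker_nonneg A _ (fun _ => zero_le_one) p
  have h4 := abs_le_of_sq_le_sq h2 (by positivity)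
  have h5 := le_abs_self (2 * pairSum A)
  linarith

end Pool.Agent.KS6_88.PR
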