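import Pool.Agent.KS6_88.PR.Tree

/-! The kernel `1 / |p - q|`: from the linear bound for pair sums to the bounds in `l^r`. -/

set_option autoImplicit false

namespace Pool.Agent.KS6_88.PR

open Finset

/-- the sum of `1 / (q - p)` over the pairs `p < q` of elements of `B` -/
noncomputable def pairSum (B : Finset ℕ) : ℝ :=
  ∑ p ∈ B, ∑ q ∈ B with p < q, 1 / ((q : ℝ) - (p : ℝ))

theorem sym (B : Finset ℕ) : ∑ a ∈ B, ∑ b ∈ B, 1 / |(a : ℝ) - b| = 2 * pairSum B := by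
  have h1 : ∀ a b : ℕ, 1 / |(a : ℝ) - b| =
      (if a < b then 1 / ((b : ℝ) - a) else 0) + (if b < a then 1 / ((a : ℝ) - b) else 0) := by
    intro a b
    rcases lt_trichotomy a b with h | h | h
    · have h' : (a : ℝ) < b := by exact_mod_cast h
      rw [if_pos h, if_neg h.asymm, abs_of_neg (by linarith), neg_sub, add_zero]
    · subst h; simp
    · have h' : (b : ℝ) < a := by exact_mod_cast h
      rw [if_neg h.asymm, if_pos h, abs_of_pos (by linarith), zero_add]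
  have h2 : ∑ a ∈ B, ∑ b ∈ B, (if a < b then 1 / ((b : ℝ) - a) else 0) = pairSum B := by
    unfold pairSum
    refine sum_congr rfl fun a _ => ?_
    rw [sum_filter]
  simp only [h1, sum_add_distrib]
  rw [h2, sum_comm, h2]
  ring

theorem geo1 (j : ℕ) : ∑ i ∈ Ioc 0 j, (1 / 2 ^ i : ℝ) = 1 - 1 / 2 ^ j := by
  induction j with
  | zero => simp
  | succ j ih =>
    rw [← Finset.sum_Ioc_consecutive _ (Nat.zero_le j) (Nat.le_succ j), Nat.Ioc_succ_singleton,
      sum_singleton, ih, pow_succ]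
    have : (0 : ℝ) < 2 ^ j := by positivity
    field_simp; ring

theorem geo2 (h j : ℕ) (hh : 0 < h) :
    (h < 2 ^ j → ∑ i ∈ Ioc 0 j, (if h < 2 ^ i then (1 / 2 ^ i : ℝ) else 0) ≤ 2 / h - 1 / 2 ^ j) ∧
    (2 ^ j ≤ h → ∑ i ∈ Ioc 0 j, (if h < 2 ^ i then (1 / 2 ^ i : ℝ) else 0) = 0) := by
  have hR : (0 : ℝ) < h := by exact_mod_cast hh
  induction j with
  | zero =>
    refine ⟨fun h1 => ?_, fun _ => by simp⟩
    simp at h1; omega
  | succ j ih =>
    rw [← Finset.sum_Ioc_consecutive _ (Nat.zero_le j) (Nat.le_succ j), Nat.Ioc_succ_singleton,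
      sum_singleton]
    have hp : (0 : ℝ) < 2 ^ j := by positivity
    constructor
    · intro h1
      rw [if_pos h1]
      have e : (1 : ℝ) / 2 ^ (j + 1) = 1 / 2 * (1 / 2 ^ j) := by rw [pow_succ]; field_simp
      rcases Nat.lt_or_ge h (2 ^ j) with h2 | h2
      · have := ih.1 h2
        rw [e]
        have : (0 : ℝ) < 1 / 2 ^ j := by positivity
        linarith
      · rw [ih.2 h2, zero_add]
        have h3 : (1 : ℝ) / 2 ^ (j + 1) ≤ 1 / h := by
          apply one_div_le_one_div_of_le hR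
          exact_mod_cast h1.le
        have h4 : (2 : ℝ) / h = 1 / h + 1 / h := by ring
        linarith
    · intro h1
      have h2 : 2 ^ j ≤ h := le_trans (Nat.pow_le_pow_right (by norm_num) (Nat.le_succ j)) h1
      rw [ih.2 h2, if_neg (by omega), add_zero]

theorem geo3 (h j : ℕ) (hh : 0 < h) :
    ∑ i ∈ Ioc 0 j, (if h < 2 ^ i then (1 / 2 ^ i : ℝ) else 0) ≤ 2 / h := by
  rcases Nat.lt_or_ge h (2 ^ j) with h2 | h2
  · have := (geo2 h j hh).1 h2
    have : (0 : ℝ) < 1 / 2 ^ j := by positivity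
    linarith
  · rw [(geo2 h j hh).2 h2]; positivity

theorem natAbs_cast (a b : ℕ) : ((((a : ℤ) - b).natAbs : ℕ) : ℝ) = |(a : ℝ) - b| := by
  rw [Nat.cast_natAbs]
  push_cast
  rfl

theorem same_lt {a b t Q : ℕ} (hQ : 0 < Q) (h : (b + t) / Q = (a + t) / Q) :
    ((a : ℤ) - b).natAbs < Q := by
  have e1 := Nat.div_add_mod (a + t) Q
  have e2 := Nat.div_add_mod (b + t) Q
  have e3 := Nat.mod_lt (a + t) hQ
  have e4 := Nat.mod_lt (b + t) hQ
  rw [h] at e2
  omega

/-- Carleson packing from the linear bound for pair sums -/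
theorem pack {c : ℝ} (t : ℕ) (A : Finset ℕ) (hS : ∀ B ⊆ A, pairSum B ≤ c * #B) (j u : ℕ) :
    Z t A j u ≤ (1 + 4 * c) * M t A j u := by
  set B := bl t A j u with hB
  have h1 : ∀ i ∈ Ioc 0 j, ∀ a ∈ B, M t A i ((a + t) / 2 ^ i) ≤
      ∑ b ∈ B, ((if a = b then (1 : ℝ) else 0) +
        (if a ≠ b ∧ ((a : ℤ) - b).natAbs < 2 ^ i then (1 : ℝ) else 0)) := by
    intro i hi a ha
    obtain ⟨_, hij⟩ := mem_Ioc.mp hi
    have ha2 := (mem_filter.mp ha).2
    have hsub : bl t A i ((a + t) / 2 ^ i) ⊆ B := by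
      intro b hb
      obtain ⟨hb1, hb2⟩ := mem_filter.mp hb
      refine mem_filter.mpr ⟨hb1, ?_⟩
      obtain ⟨e, rfl⟩ := Nat.exists_eq_add_of_le hij
      rw [pow_add, ← Nat.div_div_eq_div_mul] at ha2 ⊢
      rw [hb2, ha2]
    rw [M_eq]
    refine (sum_le_sum fun b hb => ?_).trans (sum_le_sum_of_subset_of_nonneg hsub fun b _ _ => by
      split_ifs <;> norm_num)
    have hb2 := (mem_filter.mp hb).2
    have hlt := same_lt (Nat.two_pow_pos i) hb2
    by_cases hab : a = b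
    · simp [hab]
    · simp [hab, hlt]
  have h2 : Z t A j u ≤ ∑ a ∈ B, ∑ b ∈ B, ((if a = b then (1 : ℝ) else 0) + 2 * (1 / |(a : ℝ) - b|)) := by
    unfold Z
    calc ∑ i ∈ Ioc 0 j, (1 / 2 ^ i : ℝ) * ∑ a ∈ bl t A j u, M t A i ((a + t) / 2 ^ i)
        ≤ ∑ i ∈ Ioc 0 j, (1 / 2 ^ i : ℝ) * ∑ a ∈ B, ∑ b ∈ B, ((if a = b then (1 : ℝ) else 0) +
          (if a ≠ b ∧ ((a : ℤ) - b).natAbs < 2 ^ i then (1 : ℝ) else 0)) :=
          sum_le_sum fun i hi => mul_le_mul_of_nonneg_left (sum_le_sum (h1 i hi)) (by positivity)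
      _ = ∑ a ∈ B, ∑ b ∈ B, ∑ i ∈ Ioc 0 j, (1 / 2 ^ i : ℝ) * ((if a = b then (1 : ℝ) else 0) +
          (if a ≠ b ∧ ((a : ℤ) - b).natAbs < 2 ^ i then (1 : ℝ) else 0)) := by
          simp only [mul_sum]
          rw [sum_comm]
          refine sum_congr rfl fun a _ => ?_
          rw [sum_comm]
      _ ≤ _ := by
          refine sum_le_sum fun a _ => sum_le_sum fun b _ => ?_
          by_cases hab : a = b
          · subst hab
            simp only [if_true, ne_eq, not_true_eq_false, false_and, if_false, add_zero, mul_one,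
              sub_self, abs_zero, div_zero, mul_zero, add_zero]
            rw [geo1]
            have : (0 : ℝ) < 1 / 2 ^ j := by positivity
            linarith
          · have hpos : 0 < ((a : ℤ) - b).natAbs := by omega
            have := geo3 _ j hpos
            rw [natAbs_cast] at this
            simp only [hab, if_false, ne_eq, not_false_eq_true, true_and, zero_add, mul_ite, mul_one,
              mul_zero]
            refine this.trans_eq ?_
            ring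
  refine h2.trans ?_
  simp only [sum_add_distrib, ← mul_sum]
  rw [sym]
  have h3 : ∑ a ∈ B, ∑ b ∈ B, (if a = b then (1 : ℝ) else 0) = #B := by
    simp
  rw [h3]
  have h4 := hS B (filter_subset _ _)
  have h5 : M t A j u = #B := rfl
  rw [h5]
  linarith

/-- the shift -/
def tt : ℕ → ℕ
  | 0 => 0
  | m + 1 => 4 * tt m + 1

theorem mod_four (x Q : ℕ) (hQ : 0 < Q) : (4 * x + 1) % (4 * Q) = 4 * (x % Q) + 1 := by
  have h1 := Nat.div_add_mod x Q
  have h2 := Nat.mod_lt x hQ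
  have h3 : 4 * x + 1 = (4 * (x % Q) + 1) + 4 * Q * (x / Q) := by
    calc 4 * x + 1 = 4 * (Q * (x / Q) + x % Q) + 1 := by rw [h1]
      _ = _ := by ring
  rw [h3, Nat.add_mul_mod_self_left, Nat.mod_eq_of_lt (by omega)]

theorem tt_mod (m : ℕ) : ∀ k, k + 2 ≤ 2 * m →
    2 ^ k ≤ tt m % (4 * 2 ^ k) ∧ tt m % (4 * 2 ^ k) + 2 ^ k < 4 * 2 ^ k := by
  induction m with
  | zero => intro k hk; omega
  | succ m ih =>
    intro k hk
    rw [tt, mod_four _ _ (Nat.two_pow_pos k)]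
    rcases k with _ | _ | k
    · rw [pow_zero, Nat.mod_one]; omega
    · obtain ⟨n, rfl⟩ : ∃ n, m = n + 1 := ⟨m - 1, by omega⟩
      rw [tt]; omega
    · have h1 := ih k (by omega)
      have e : 2 ^ (k + 1 + 1) = 4 * 2 ^ k := by ring
      rw [e]
      omega

theorem cover {m k p q : ℕ} (hpq : p < q) (hk : q < p + 2 ^ k) (hm : k + 2 ≤ 2 * m) :
    p / 2 ^ (k + 2) = q / 2 ^ (k + 2) ∨ (p + tt m) / 2 ^ (k + 2) = (q + tt m) / 2 ^ (k + 2) := by
  by_contra hcon
  push Not at hcon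
  obtain ⟨h1, h2⟩ := hcon
  have e : 2 ^ (k + 2) = 4 * 2 ^ k := by ring
  rw [e] at h1 h2
  obtain ⟨t1, t2⟩ := tt_mod m k hm
  have hQ : 0 < 4 * 2 ^ k := by positivity
  set Q := 4 * 2 ^ k with hQdef
  have a1 := Nat.div_add_mod p Q
  have a2 := Nat.div_add_mod q Q
  have a3 := Nat.div_add_mod (tt m) Q
  have b1 := Nat.mod_lt p hQ
  have b2 := Nat.mod_lt q hQ
  have b3 := Nat.mod_lt (tt m) hQ
  have hle : p / Q < q / Q := lt_of_le_of_ne (Nat.div_le_div_right hpq.le) h1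
  have hmul : Q * (p / Q) + Q ≤ Q * (q / Q) := by
    have := Nat.mul_le_mul_left Q hle
    rw [Nat.succ_eq_add_one, mul_add, mul_one] at this
    exact this
  have c1 : (q + tt m) / Q = q / Q + tt m / Q := by
    have : q + tt m = (q % Q + tt m % Q) + Q * (q / Q + tt m / Q) := by
      calc q + tt m = (Q * (q / Q) + q % Q) + (Q * (tt m / Q) + tt m % Q) := by rw [a2, a3]
        _ = _ := by ring
    rw [this, Nat.add_mul_div_left _ _ hQ, Nat.div_eq_of_lt (by omega), zero_add]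
  have c2 : (p + tt m) / Q = q / Q + tt m / Q := by
    have : p + tt m = (q % Q + tt m % Q - (q - p)) + Q * (q / Q + tt m / Q) := by
      have : q % Q + tt m % Q - (q - p) + Q * (q / Q + tt m / Q) =
          q % Q + tt m % Q - (q - p) + (Q * (q / Q) + Q * (tt m / Q)) := by ring
      omega
    rw [this, Nat.add_mul_div_left _ _ hQ, Nat.div_eq_of_lt (by omega), zero_add]
  exact h2 (c2.trans c1.symm)

/-- same block at level `i` of the tree shifted by `t` -/
noncomputable def same (t i p q : ℕ) : ℝ := if (p + t) / 2 ^ i = (q + t) / 2 ^ i then 1 else 0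

theorem same_nonneg (t i p q : ℕ) : 0 ≤ same t i p q := by
  unfold same; split_ifs <;> norm_num

theorem same_comm (t i p q : ℕ) : same t i p q = same t i q p := by
  unfold same; simp only [eq_comm]

theorem kernel_le1 {m p q : ℕ} (hpq : p < q) (hm : Nat.log 2 (q - p) + 3 ≤ 2 * m) :
    1 / |(p : ℝ) - q| ≤ ∑ i ∈ Ioc 0 (2 * m), 8 / 2 ^ i * (same 0 i p q + same (tt m) i p q) := by
  have hh : q - p ≠ 0 := by omega
  set k := Nat.log 2 (q - p) + 1 with hk
  have h1 : q - p < 2 ^ k := Nat.lt_pow_succ_log_self one_lt_two _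
  have h2 : 2 ^ Nat.log 2 (q - p) ≤ q - p := Nat.pow_log_le_self 2 hh
  have h3 : (q : ℝ) - p = ((q - p : ℕ) : ℝ) := by rw [Nat.cast_sub hpq.le]
  have h4 : (2 : ℝ) ^ Nat.log 2 (q - p) ≤ (q : ℝ) - p := by rw [h3]; exact_mod_cast h2
  have h5 : 1 / |(p : ℝ) - q| ≤ 8 / 2 ^ (k + 2) := by
    rw [abs_sub_comm, abs_of_pos (lt_of_lt_of_le (by positivity) h4)]
    rw [div_le_div_iff₀ (lt_of_lt_of_le (by positivity) h4) (by positivity)]
    have : (2 : ℝ) ^ (k + 2) = 8 * 2 ^ Nat.log 2 (q - p) := by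
      rw [hk]; ring
    rw [this]; linarith
  have h6 : 1 ≤ same 0 (k + 2) p q + same (tt m) (k + 2) p q := by
    rcases cover (m := m) (k := k) hpq (by omega) (by omega) with h | h
    · have : same 0 (k + 2) p q = 1 := by unfold same; rw [add_zero, add_zero, if_pos h]
      have := same_nonneg (tt m) (k + 2) p q
      linarith
    · have : same (tt m) (k + 2) p q = 1 := by unfold same; rw [if_pos h]
      have := same_nonneg 0 (k + 2) p q
      linarith
  refine le_trans ?_ (single_le_sum (f := fun i => (8 : ℝ) / 2 ^ i *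
    (same 0 i p q + same (tt m) i p q)) (fun i _ => mul_nonneg (by positivity)
      (add_nonneg (same_nonneg _ _ _ _) (same_nonneg _ _ _ _)))
    (show k + 2 ∈ Ioc 0 (2 * m) from mem_Ioc.mpr ⟨by omega, by omega⟩))
  refine h5.trans ?_
  exact le_mul_of_one_le_right (by positivity) h6

theorem kernel_le {m p q : ℕ} (hp : p < 2 ^ (2 * m - 3)) (hq : q < 2 ^ (2 * m - 3)) (hm : 2 ≤ m) :
    1 / |(p : ℝ) - q| ≤ ∑ i ∈ Ioc 0 (2 * m), 8 / 2 ^ i * (same 0 i p q + same (tt m) i p q) := by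
  rcases lt_trichotomy p q with h | h | h
  · refine kernel_le1 h ?_
    have : Nat.log 2 (q - p) < 2 * m - 3 := Nat.log_lt_of_lt_pow (by omega) (by omega)
    omega
  · subst h
    rw [sub_self, abs_zero, div_zero]
    exact sum_nonneg fun i _ => mul_nonneg (by positivity)
      (add_nonneg (same_nonneg _ _ _ _) (same_nonneg _ _ _ _))
  · rw [abs_sub_comm]
    simp only [same_comm _ _ p q]
    refine kernel_le1 h ?_
    have : Nat.log 2 (p - q) < 2 * m - 3 := Nat.log_lt_of_lt_pow (by omega) (by omega)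
    omega

theorem fiber (t : ℕ) (A : Finset ℕ) (f g : ℕ → ℝ) (N : ℕ) (hN : ∀ a ∈ A, a + t < N) (i : ℕ) :
    ∑ p ∈ A, ∑ q ∈ A, f p * g q * same t i p q = ∑ u ∈ range N, Y t A f i u * Y t A g i u := by
  have h1 : ∀ p, ∑ q ∈ A, f p * g q * same t i p q = f p * Y t A g i ((p + t) / 2 ^ i) := by
    intro p
    unfold Y bl same
    rw [mul_sum, sum_filter]
    refine sum_congr rfl fun q _ => ?_
    by_cases h : (p + t) / 2 ^ i = (q + t) / 2 ^ i
    · rw [if_pos h, if_pos h.symm, mul_one]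
    · rw [if_neg h, if_neg (fun h' => h h'.symm), mul_zero]
  simp only [h1]
  rw [← sum_fiberwise_of_maps_to (g := fun a => (a + t) / 2 ^ i) (t := range N) fun a ha =>
    mem_range.mpr (lt_of_le_of_lt (Nat.div_le_self _ _) (hN a ha))]
  refine sum_congr rfl fun u _ => ?_
  rw [sum_congr rfl fun a ha => by rw [(mem_filter.mp ha).2], ← sum_mul]
  rfl

theorem holder {r s C : ℝ} (hrs : r.HolderConjugate s) (hC : 0 < C) (t : ℕ) (A : Finset ℕ)
    (f g : ℕ → ℝ) (hf : ∀ a, 0 ≤ f a) (hg : ∀ a, 0 ≤ g a)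
    (hZ : ∀ j u, Z t A j u ≤ C * M t A j u) (N : ℕ) (hN : ∀ a ∈ A, a + t < N) (J : ℕ) :
    ∑ i ∈ Ioc 0 J, 1 / 2 ^ i * ∑ u ∈ range N, Y t A f i u * Y t A g i u ≤
      (C * 2 ^ r / (r - 1) * ∑ a ∈ A, f a ^ r) ^ (1 / r) *
        (C * 2 ^ s / (s - 1) * ∑ a ∈ A, g a ^ s) ^ (1 / s) := by
  have hr := hrs.lt
  have hs := hrs.symm.lt
  set α : ℕ × ℕ → ℝ := fun x => M t A x.1 x.2 ^ 2 / 2 ^ x.1 with hα
  have hα0 : ∀ x, 0 ≤ α x := fun x => by
    have := M_nonneg t A x.1 x.2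
    simp only [hα]; positivity
  have hav : ∀ (w : ℕ → ℝ), (∀ a, 0 ≤ w a) → ∀ x : ℕ × ℕ, 0 ≤ Y t A w x.1 x.2 / M t A x.1 x.2 :=
    fun w hw x => div_nonneg (Y_nonneg t A w hw _ _) (M_nonneg _ _ _ _)
  have h1 : ∑ i ∈ Ioc 0 J, 1 / 2 ^ i * ∑ u ∈ range N, Y t A f i u * Y t A g i u =
      ∑ x ∈ Ioc 0 J ×ˢ range N, (α x ^ (1 / r) * (Y t A f x.1 x.2 / M t A x.1 x.2)) *
        (α x ^ (1 / s) * (Y t A g x.1 x.2 / M t A x.1 x.2)) := by
    rw [sum_product]
    refine sum_congr rfl fun i _ => ?_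
    rw [mul_sum]
    refine sum_congr rfl fun u _ => ?_
    simp only
    rcases (M_nonneg t A i u).eq_or_lt with e | e
    · rw [Y_zero t A f i u e.symm, Y_zero t A g i u e.symm]; simp
    · have h2 : α (i, u) ^ (1 / r) * α (i, u) ^ (1 / s) = α (i, u) := by
        have hα1 : 0 < α (i, u) := by simp only [hα]; positivity
        rw [← Real.rpow_add hα1, one_div, one_div, hrs.inv_add_inv_eq_one, Real.rpow_one]
      calc 1 / 2 ^ i * (Y t A f i u * Y t A g i u) =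
          α (i, u) * (Y t A f i u / M t A i u) * (Y t A g i u / M t A i u) := by
            simp only [hα]; field_simp
        _ = _ := by
            conv_lhs => rw [← h2]
            ring
  rw [h1]
  refine (Real.inner_le_Lp_mul_Lq_of_nonneg _ hrs
    (fun x _ => mul_nonneg (Real.rpow_nonneg (hα0 x) _) (hav f hf x))
    (fun x _ => mul_nonneg (Real.rpow_nonneg (hα0 x) _) (hav g hg x))).trans ?_
  have h3 : ∀ (w : ℕ → ℝ), (∀ a, 0 ≤ w a) → ∀ ρ : ℝ, 1 < ρ →
      ∑ x ∈ Ioc 0 J ×ˢ range N, (α x ^ (1 / ρ) * (Y t A w x.1 x.2 / M t A x.1 x.2)) ^ ρ ≤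
        C * 2 ^ ρ / (ρ - 1) * ∑ a ∈ A, w a ^ ρ := by
    intro w hw ρ hρ
    refine le_trans (le_of_eq ?_) (carleson hρ hC t A w hw hZ N hN J)
    rw [sum_product]
    refine sum_congr rfl fun i _ => sum_congr rfl fun u _ => ?_
    simp only
    rw [Real.mul_rpow (Real.rpow_nonneg (hα0 _) _) (hav w hw (i, u)), ← Real.rpow_mul (hα0 _),
      one_div_mul_cancel (by linarith), Real.rpow_one]
    rfl
  have h4 : ∀ (w : ℕ → ℝ), (∀ a, 0 ≤ w a) → ∀ ρ : ℝ,
      0 ≤ ∑ x ∈ Ioc 0 J ×ˢ range N, (α x ^ (1 / ρ) * (Y t A w x.1 x.2 / M t A x.1 x.2)) ^ ρ :=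
    fun w hw ρ => sum_nonneg fun x _ => Real.rpow_nonneg
      (mul_nonneg (Real.rpow_nonneg (hα0 x) _) (hav w hw x)) _
  exact mul_le_mul (Real.rpow_le_rpow (h4 f hf r) (h3 f hf r hr) (by positivity))
    (Real.rpow_le_rpow (h4 g hg s) (h3 g hg s hs) (by positivity))
    (Real.rpow_nonneg (h4 g hg s) _)
    (Real.rpow_nonneg (mul_nonneg (div_nonneg (by positivity) (by linarith))
      (sum_nonneg fun a _ => Real.rpow_nonneg (hf a) _)) _)

/-- the bilinear form -/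
theorem bilinear {r s c : ℝ} (hrs : r.HolderConjugate s) (hc : 0 ≤ c) (A : Finset ℕ)
    (hS : ∀ B ⊆ A, pairSum B ≤ c * #B) (f g : ℕ → ℝ) (hf : ∀ a, 0 ≤ f a) (hg : ∀ a, 0 ≤ g a) :
    ∑ p ∈ A, ∑ q ∈ A, f p * g q * (1 / |(p : ℝ) - q|) ≤
      16 * (((1 + 4 * c) * 2 ^ r / (r - 1) * ∑ a ∈ A, f a ^ r) ^ (1 / r) *
        ((1 + 4 * c) * 2 ^ s / (s - 1) * ∑ a ∈ A, g a ^ s) ^ (1 / s)) := by
  have hC : 0 < 1 + 4 * c := by linarith
  obtain ⟨m, hm2, hm⟩ : ∃ m, 2 ≤ m ∧ ∀ a ∈ A, a < 2 ^ (2 * m - 3) := by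
    refine ⟨A.sup id + 2, by omega, fun a ha => ?_⟩
    have h1 : a ≤ A.sup id := le_sup (f := id) ha
    have h2 : a < 2 ^ a := Nat.lt_two_pow_self
    exact h2.trans_le (Nat.pow_le_pow_right (by norm_num) (by omega))
  set N := 2 ^ (2 * m - 3) + tt m with hN
  have hN0 : ∀ a ∈ A, a + 0 < N := fun a ha => by have := hm a ha; omega
  have hNt : ∀ a ∈ A, a + tt m < N := fun a ha => by have := hm a ha; omega
  calc ∑ p ∈ A, ∑ q ∈ A, f p * g q * (1 / |(p : ℝ) - q|)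
      ≤ ∑ p ∈ A, ∑ q ∈ A, f p * g q *
        ∑ i ∈ Ioc 0 (2 * m), 8 / 2 ^ i * (same 0 i p q + same (tt m) i p q) :=
        sum_le_sum fun p hp => sum_le_sum fun q hq => mul_le_mul_of_nonneg_left
          (kernel_le (hm p hp) (hm q hq) hm2) (mul_nonneg (hf p) (hg q))
    _ = 8 * (∑ i ∈ Ioc 0 (2 * m), 1 / 2 ^ i * ∑ p ∈ A, ∑ q ∈ A, f p * g q * same 0 i p q +
        ∑ i ∈ Ioc 0 (2 * m), 1 / 2 ^ i * ∑ p ∈ A, ∑ q ∈ A, f p * g q * same (tt m) i p q) := by
        rw [← sum_add_distrib, mul_sum]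
        simp only [mul_sum]
        rw [sum_congr rfl fun p _ => sum_comm, sum_comm]
        refine sum_congr rfl fun i _ => ?_
        rw [← sum_add_distrib, mul_sum]
        refine sum_congr rfl fun p _ => ?_
        rw [← sum_add_distrib, mul_sum]
        refine sum_congr rfl fun q _ => ?_
        ring
    _ ≤ 8 * (((1 + 4 * c) * 2 ^ r / (r - 1) * ∑ a ∈ A, f a ^ r) ^ (1 / r) *
        ((1 + 4 * c) * 2 ^ s / (s - 1) * ∑ a ∈ A, g a ^ s) ^ (1 / s) +
        ((1 + 4 * c) * 2 ^ r / (r - 1) * ∑ a ∈ A, f a ^ r) ^ (1 / r) *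
        ((1 + 4 * c) * 2 ^ s / (s - 1) * ∑ a ∈ A, g a ^ s) ^ (1 / s)) := by
        refine mul_le_mul_of_nonneg_left (add_le_add ?_ ?_) (by norm_num)
        · rw [sum_congr rfl fun i _ => by rw [fiber 0 A f g N hN0 i]]
          exact holder hrs hC 0 A f g hf hg (pack 0 A hS) N hN0 _
        · rw [sum_congr rfl fun i _ => by rw [fiber (tt m) A f g N hNt i]]
          exact holder hrs hC (tt m) A f g hf hg (pack (tt m) A hS) N hNt _
    _ = _ := by ring

end Pool.Agent.KS6_88.PR
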