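import Mathlib

/-! Carleson embedding on the shifted dyadic trees, for the kernel `1 / |p - q|` on a finite set
of natural numbers. -/

set_option autoImplicit false

namespace Pool.Agent.KS6_88.PR

open Finset

/-- elements of `A` in the block number `u` of level `j` of the tree shifted by `t` -/
def bl (t : ℕ) (A : Finset ℕ) (j u : ℕ) : Finset ℕ := {a ∈ A | (a + t) / 2 ^ j = u}

noncomputable def M (t : ℕ) (A : Finset ℕ) (j u : ℕ) : ℝ := #(bl t A j u)

noncomputable def Y (t : ℕ) (A : Finset ℕ) (f : ℕ → ℝ) (j u : ℕ) : ℝ := ∑ a ∈ bl t A j u, f a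

noncomputable def Z (t : ℕ) (A : Finset ℕ) (j u : ℕ) : ℝ :=
  ∑ i ∈ Ioc 0 j, (1 / 2 ^ i : ℝ) * ∑ a ∈ bl t A j u, M t A i ((a + t) / 2 ^ i)

/-- `D (Y / D) ^ r` -/
noncomputable def phi (r y d : ℝ) : ℝ := d * (y / d) ^ r

theorem bl_split (t : ℕ) (A : Finset ℕ) (w : ℕ → ℝ) (j u : ℕ) :
    ∑ a ∈ bl t A (j + 1) u, w a = ∑ a ∈ bl t A j (2 * u), w a + ∑ a ∈ bl t A j (2 * u + 1), w a := by
  unfold bl
  rw [← sum_union]
  · rw [← filter_or]
    congr 1
    ext a
    simp only [mem_filter, and_congr_right_iff]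
    intro _
    rw [pow_succ, ← Nat.div_div_eq_div_mul]
    omega
  · rw [disjoint_filter]
    intro a _ h1 h2
    omega

theorem M_eq (t : ℕ) (A : Finset ℕ) (j u : ℕ) : M t A j u = ∑ _a ∈ bl t A j u, (1 : ℝ) := by
  simp [M]

theorem M_split (t : ℕ) (A : Finset ℕ) (j u : ℕ) :
    M t A (j + 1) u = M t A j (2 * u) + M t A j (2 * u + 1) := by
  simp only [M_eq]
  exact bl_split t A _ j u

theorem Y_split (t : ℕ) (A : Finset ℕ) (f : ℕ → ℝ) (j u : ℕ) :
    Y t A f (j + 1) u = Y t A f j (2 * u) + Y t A f j (2 * u + 1) := bl_split t A _ j u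

theorem Z_split (t : ℕ) (A : Finset ℕ) (j u : ℕ) :
    Z t A (j + 1) u = Z t A j (2 * u) + Z t A j (2 * u + 1) + M t A (j + 1) u ^ 2 / 2 ^ (j + 1) := by
  have h1 : ∑ a ∈ bl t A (j + 1) u, M t A (j + 1) ((a + t) / 2 ^ (j + 1)) = M t A (j + 1) u ^ 2 := by
    rw [sum_congr rfl fun a ha => by rw [(mem_filter.mp ha).2], sum_const, nsmul_eq_mul, M, sq]
  unfold Z
  rw [← Finset.sum_Ioc_consecutive _ (Nat.zero_le j) (Nat.le_succ j), Nat.Ioc_succ_singleton,
    sum_singleton, h1, ← sum_add_distrib]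
  congr 1
  · refine sum_congr rfl fun i _ => ?_
    rw [bl_split t A, mul_add]
  · ring

theorem M_nonneg (t : ℕ) (A : Finset ℕ) (j u : ℕ) : 0 ≤ M t A j u := Nat.cast_nonneg _

theorem Y_nonneg (t : ℕ) (A : Finset ℕ) (f : ℕ → ℝ) (hf : ∀ a, 0 ≤ f a) (j u : ℕ) :
    0 ≤ Y t A f j u := sum_nonneg fun a _ => hf a

theorem Z_nonneg (t : ℕ) (A : Finset ℕ) (j u : ℕ) : 0 ≤ Z t A j u :=
  sum_nonneg fun _ _ => mul_nonneg (by positivity) (sum_nonneg fun _ _ => M_nonneg _ _ _ _)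

theorem Y_zero (t : ℕ) (A : Finset ℕ) (f : ℕ → ℝ) (j u : ℕ) (h : M t A j u = 0) :
    Y t A f j u = 0 := by
  unfold M at h
  have : bl t A j u = ∅ := by
    rw [← card_eq_zero]
    exact_mod_cast h
  rw [Y, this, sum_empty]

theorem phi_nonneg {r y d : ℝ} (hy : 0 ≤ y) (hd : 0 ≤ d) : 0 ≤ phi r y d :=
  mul_nonneg hd (Real.rpow_nonneg (div_nonneg hy hd) _)

/-- Radon's inequality -/
theorem radon {r : ℝ} (hr : 1 < r) {y1 y2 d1 d2 : ℝ} (hy1 : 0 ≤ y1) (hy2 : 0 ≤ y2) (hd1 : 0 ≤ d1)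
    (hd2 : 0 ≤ d2) (h1 : d1 = 0 → y1 = 0) (h2 : d2 = 0 → y2 = 0) :
    phi r (y1 + y2) (d1 + d2) ≤ phi r y1 d1 + phi r y2 d2 := by
  rcases hd1.eq_or_lt with e | e
  · simp [← e, h1 e.symm, phi]
  rcases hd2.eq_or_lt with e' | e'
  · simp [← e', h2 e'.symm, phi]
  have h3 := (convexOn_rpow hr.le).2 (show y1 / d1 ∈ Set.Ici (0 : ℝ) from div_nonneg hy1 hd1)
    (show y2 / d2 ∈ Set.Ici (0 : ℝ) from div_nonneg hy2 hd2)
    (show (0 : ℝ) ≤ d1 / (d1 + d2) by positivity) (show (0 : ℝ) ≤ d2 / (d1 + d2) by positivity)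
    (by field_simp)
  simp only [smul_eq_mul] at h3
  have h4 : d1 / (d1 + d2) * (y1 / d1) + d2 / (d1 + d2) * (y2 / d2) = (y1 + y2) / (d1 + d2) := by
    field_simp
  rw [h4] at h3
  have h5 := mul_le_mul_of_nonneg_left h3 (show 0 ≤ d1 + d2 by linarith)
  have h6 : (d1 + d2) * (d1 / (d1 + d2) * (y1 / d1) ^ r + d2 / (d1 + d2) * (y2 / d2) ^ r) =
      d1 * (y1 / d1) ^ r + d2 * (y2 / d2) ^ r := by
    field_simp
  rw [h6] at h5
  exact h5

/-- Bernoulli -/
theorem bern {r : ℝ} (hr : 1 < r) {y d e : ℝ} (hy : 0 ≤ y) (hd : 0 < d) (he : 0 ≤ e) :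
    phi r y (d + e) + (r - 1) * e * (y / (d + e)) ^ r ≤ phi r y d := by
  have hx : 0 < d / (d + e) := by positivity
  have h1 : (1 : ℝ) + (r - 1) * (1 - d / (d + e)) ≤ (d / (d + e)) ^ (1 - r) := by
    rw [Real.rpow_def_of_pos hx]
    refine le_trans ?_ (Real.add_one_le_exp _)
    have := Real.log_le_sub_one_of_pos hx
    nlinarith
  have h2 : phi r y d = (y / (d + e)) ^ r * (d + e) * (d / (d + e)) ^ (1 - r) := by
    unfold phi
    have e1 : y / d = y / (d + e) * (d / (d + e))⁻¹ := by field_simp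
    rw [e1, Real.mul_rpow (by positivity) (by positivity), Real.inv_rpow hx.le,
      Real.rpow_sub hx, Real.rpow_one]
    have : (0 : ℝ) < (d / (d + e)) ^ r := Real.rpow_pos_of_pos hx _
    field_simp
  rw [h2]
  have h3 : 0 ≤ (y / (d + e)) ^ r * (d + e) := by positivity
  refine le_trans ?_ (mul_le_mul_of_nonneg_left h1 h3)
  unfold phi
  have h4 : (d + e) * (1 - d / (d + e)) = e := by field_simp; ring
  have h5 : (y / (d + e)) ^ r * (d + e) * (1 + (r - 1) * (1 - d / (d + e))) =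
      (y / (d + e)) ^ r * (d + e) + (r - 1) * (y / (d + e)) ^ r * ((d + e) * (1 - d / (d + e))) := by ring
  rw [h5, h4]
  apply le_of_eq
  ring

/-- the potential -/
noncomputable def Ph (r C : ℝ) (t : ℕ) (A : Finset ℕ) (f : ℕ → ℝ) (j u : ℕ) : ℝ :=
  phi r (Y t A f j u) (M t A j u + Z t A j u / C)

/-- the energy -/
noncomputable def En (r : ℝ) (t : ℕ) (A : Finset ℕ) (f : ℕ → ℝ) (j u : ℕ) : ℝ :=
  M t A j u ^ 2 / 2 ^ j * (Y t A f j u / M t A j u) ^ r

theorem step {r C : ℝ} (hr : 1 < r) (hC : 0 < C) (t : ℕ) (A : Finset ℕ) (f : ℕ → ℝ)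
    (hf : ∀ a, 0 ≤ f a) (hZ : ∀ j u, Z t A j u ≤ C * M t A j u) (j u : ℕ) :
    Ph r C t A f (j + 1) u + (r - 1) / (C * 2 ^ r) * En r t A f (j + 1) u ≤
      Ph r C t A f j (2 * u) + Ph r C t A f j (2 * u + 1) := by
  have hM1 := M_nonneg t A j (2 * u)
  have hM2 := M_nonneg t A j (2 * u + 1)
  have hM := M_nonneg t A (j + 1) u
  have hY1 := Y_nonneg t A f hf j (2 * u)
  have hY2 := Y_nonneg t A f hf j (2 * u + 1)
  have hY := Y_nonneg t A f hf (j + 1) u
  have hZ1 := Z_nonneg t A j (2 * u)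
  have hZ2 := Z_nonneg t A j (2 * u + 1)
  have sM := M_split t A j u
  have sY := Y_split t A f j u
  have sZ := Z_split t A j u
  have hZu := hZ (j + 1) u
  rcases hM.eq_or_lt with e | e
  · have y0 := Y_zero t A f (j + 1) u e.symm
    have p0 : Ph r C t A f (j + 1) u = 0 := by
      rw [Ph, phi, y0, zero_div, Real.zero_rpow (by linarith), mul_zero]
    have e0 : En r t A f (j + 1) u = 0 := by
      rw [En, ← e]; simp
    rw [p0, e0, mul_zero, add_zero]
    exact add_nonneg (phi_nonneg hY1 (by positivity)) (phi_nonneg hY2 (by positivity))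
  · set D1 := M t A j (2 * u) + Z t A j (2 * u) / C with hD1
    set D2 := M t A j (2 * u + 1) + Z t A j (2 * u + 1) / C with hD2
    have q1 : 0 ≤ Z t A j (2 * u) / C := by positivity
    have q2 : 0 ≤ Z t A j (2 * u + 1) / C := by positivity
    have r1 := radon hr hY1 hY2 (d1 := D1) (d2 := D2) (by positivity) (by positivity)
      (fun h => Y_zero t A f j _ (by linarith)) (fun h => Y_zero t A f j _ (by linarith))
    rw [← sY] at r1
    have hDpos : 0 < D1 + D2 := by linarith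
    have b1 := bern hr hY hDpos (e := M t A (j + 1) u ^ 2 / 2 ^ (j + 1) / C) (by positivity)
    have e1 : D1 + D2 + M t A (j + 1) u ^ 2 / 2 ^ (j + 1) / C =
        M t A (j + 1) u + Z t A (j + 1) u / C := by
      rw [hD1, hD2, sM, sZ, sM]; ring
    rw [e1] at b1
    refine le_trans ?_ (b1.trans r1)
    unfold Ph En
    refine add_le_add le_rfl ?_
    have h2M : M t A (j + 1) u + Z t A (j + 1) u / C ≤ 2 * M t A (j + 1) u := by
      have : Z t A (j + 1) u / C ≤ M t A (j + 1) u := by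
        rw [div_le_iff₀ hC]; linarith
      linarith
    have hDD : 0 < M t A (j + 1) u + Z t A (j + 1) u / C := by
      have := Z_nonneg t A (j + 1) u
      positivity
    have h3 : (Y t A f (j + 1) u / (2 * M t A (j + 1) u)) ^ r ≤
        (Y t A f (j + 1) u / (M t A (j + 1) u + Z t A (j + 1) u / C)) ^ r := by
      apply Real.rpow_le_rpow (by positivity) _ (by linarith)
      exact div_le_div_of_nonneg_left hY hDD h2M
    have h4 : (Y t A f (j + 1) u / (2 * M t A (j + 1) u)) ^ r =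
        (Y t A f (j + 1) u / M t A (j + 1) u) ^ r / 2 ^ r := by
      rw [← Real.div_rpow (by positivity) (by norm_num)]
      congr 1
      field_simp
    rw [h4] at h3
    have hr1 : 0 ≤ r - 1 := by linarith
    have h5 := mul_le_mul_of_nonneg_left h3
      (show 0 ≤ (r - 1) * (M t A (j + 1) u ^ 2 / 2 ^ (j + 1) / C) by positivity)
    refine le_trans (le_of_eq ?_) h5
    have : (0 : ℝ) < 2 ^ r := by positivity
    field_simp

theorem sum_two_mul (G : ℕ → ℝ) (N : ℕ) :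
    ∑ u ∈ range N, (G (2 * u) + G (2 * u + 1)) = ∑ u ∈ range (2 * N), G u := by
  induction N with
  | zero => simp
  | succ N ih =>
    rw [sum_range_succ, ih, show 2 * (N + 1) = 2 * N + 1 + 1 by ring, sum_range_succ,
      sum_range_succ]
    ring

theorem Ph_nonneg {r C : ℝ} (hC : 0 < C) (t : ℕ) (A : Finset ℕ) (f : ℕ → ℝ)
    (hf : ∀ a, 0 ≤ f a) (j u : ℕ) : 0 ≤ Ph r C t A f j u :=
  phi_nonneg (Y_nonneg t A f hf j u) (add_nonneg (M_nonneg _ _ _ _)
    (div_nonneg (Z_nonneg _ _ _ _) hC.le))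

theorem Ph_large {r C : ℝ} (hr : 1 < r) (t : ℕ) (A : Finset ℕ) (f : ℕ → ℝ) (N : ℕ)
    (hN : ∀ a ∈ A, a + t < N) (j u : ℕ) (hu : N ≤ u) : Ph r C t A f j u = 0 := by
  have : bl t A j u = ∅ := by
    rw [bl, filter_eq_empty_iff]
    intro a ha h
    have := hN a ha
    have := Nat.div_le_self (a + t) (2 ^ j)
    omega
  rw [Ph, Y, this, sum_empty, phi, zero_div, Real.zero_rpow (by linarith), mul_zero]

theorem telescope {r C : ℝ} (hr : 1 < r) (hC : 0 < C) (t : ℕ) (A : Finset ℕ) (f : ℕ → ℝ)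
    (hf : ∀ a, 0 ≤ f a) (hZ : ∀ j u, Z t A j u ≤ C * M t A j u) (N : ℕ)
    (hN : ∀ a ∈ A, a + t < N) (J : ℕ) :
    ∑ u ∈ range N, Ph r C t A f J u +
      (r - 1) / (C * 2 ^ r) * ∑ j ∈ Ioc 0 J, ∑ u ∈ range N, En r t A f j u ≤
      ∑ u ∈ range N, Ph r C t A f 0 u := by
  induction J with
  | zero => simp
  | succ J ih =>
    rw [← Finset.sum_Ioc_consecutive _ (Nat.zero_le J) (Nat.le_succ J), Nat.Ioc_succ_singleton,
      sum_singleton]
    have h1 := sum_le_sum fun u (_ : u ∈ range N) => step hr hC t A f hf hZ J u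
    rw [sum_two_mul, sum_add_distrib, ← mul_sum] at h1
    have h2 : ∑ u ∈ range (2 * N), Ph r C t A f J u = ∑ u ∈ range N, Ph r C t A f J u := by
      symm
      apply sum_subset (range_subset_range.mpr (by omega))
      intro u _ hu
      exact Ph_large hr t A f N hN J u (by simpa using hu)
    rw [h2] at h1
    rw [mul_add]
    linarith

theorem Ph_zero {r C : ℝ} (t : ℕ) (A : Finset ℕ) (f : ℕ → ℝ) (u : ℕ) :
    Ph r C t A f 0 u = ∑ a ∈ bl t A 0 u, f a ^ r := by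
  have hZ0 : Z t A 0 u = 0 := by simp [Z]
  rw [Ph, hZ0, zero_div, add_zero, Y, M, phi]
  have h1 : #(bl t A 0 u) ≤ 1 := by
    rw [card_le_one]
    intro a ha b hb
    have h1 := (mem_filter.mp ha).2
    have h2 := (mem_filter.mp hb).2
    simp only [pow_zero, Nat.div_one] at h1 h2
    omega
  rcases Nat.le_one_iff_eq_zero_or_eq_one.mp h1 with h | h
  · rw [h, card_eq_zero.mp h]; simp
  · obtain ⟨a, ha⟩ := card_eq_one.mp h
    rw [ha]; simp

/-- Carleson embedding -/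
theorem carleson {r C : ℝ} (hr : 1 < r) (hC : 0 < C) (t : ℕ) (A : Finset ℕ) (f : ℕ → ℝ)
    (hf : ∀ a, 0 ≤ f a) (hZ : ∀ j u, Z t A j u ≤ C * M t A j u) (N : ℕ)
    (hN : ∀ a ∈ A, a + t < N) (J : ℕ) :
    ∑ j ∈ Ioc 0 J, ∑ u ∈ range N, En r t A f j u ≤ C * 2 ^ r / (r - 1) * ∑ a ∈ A, f a ^ r := by
  have h1 := telescope hr hC t A f hf hZ N hN J
  have h2 : ∑ u ∈ range N, Ph r C t A f 0 u = ∑ a ∈ A, f a ^ r := by
    simp only [Ph_zero, bl, pow_zero, Nat.div_one]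
    exact sum_fiberwise_of_maps_to (fun a ha => mem_range.mpr (hN a ha)) _
  have h3 : 0 ≤ ∑ u ∈ range N, Ph r C t A f J u := sum_nonneg fun u _ => Ph_nonneg hC t A f hf J u
  rw [h2] at h1
  have h4 : (r - 1) / (C * 2 ^ r) * ∑ j ∈ Ioc 0 J, ∑ u ∈ range N, En r t A f j u ≤
      ∑ a ∈ A, f a ^ r := by linarith
  have hr1 : 0 < r - 1 := by linarith
  rw [div_mul_eq_mul_div, div_le_iff₀ (by positivity)] at h4
  rw [div_mul_eq_mul_div, le_div_iff₀ hr1]
  linarith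

end Pool.Agent.KS6_88.PR
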